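import Mathlib

set_option autoImplicit false

namespace Pool.Agent.Results.MP_c3bf79_al.Counter

open Function

/-- graded modules over the divided power algebra over `ℤ`;
`act : M i → M j` is multiplication by `x^[j-i]` -/
structure GM where
  M : ℤ → Type
  [grp : ∀ j, AddCommGroup (M j)]
  act : ∀ {i j : ℤ}, i ≤ j → M i →+ M j
  act_refl : ∀ i (x : M i), act le_rfl x = x
  act_act : ∀ {i j k : ℤ} (h : i ≤ j) (h' : j ≤ k) (x : M i),
    act h' (act h x) = (k - i).toNat.choose (j - i).toNat • act (h.trans h') x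

attribute [instance] GM.grp

/-- degree-preserving module maps -/
structure Hom (N N' : GM) where
  f : ∀ j, N.M j →+ N'.M j
  comm : ∀ {i j : ℤ} (h : i ≤ j) (x : N.M i), f j (N.act h x) = N'.act h (f i x)

/-- vectors of coefficients of `x^[j - d a] e_a` -/
def FreeDeg {r : ℕ} (d : Fin r → ℤ) (j : ℤ) : AddSubgroup (Fin r → ℤ) where
  carrier := {v | ∀ a, j < d a → v a = 0}
  add_mem' := fun h1 h2 a h => by simp [h1 a h, h2 a h]
  zero_mem' := fun _ _ => rfl
  neg_mem' := fun h1 a h => by simp [h1 a h]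

lemma actMem {r : ℕ} {d : Fin r → ℤ} {i j : ℤ} (h : i ≤ j) (v : FreeDeg d i) :
    (fun a => (j - d a).toNat.choose (j - i).toNat * v.1 a) ∈ FreeDeg d j := fun a ha => by
  simp [v.2 a (h.trans_lt ha)]

/-- multiplication by `x^[j-i]` on coefficient vectors -/
def actFun {r : ℕ} {d : Fin r → ℤ} {i j : ℤ} (h : i ≤ j) (v : FreeDeg d i) : FreeDeg d j :=
  ⟨fun a => (j - d a).toNat.choose (j - i).toNat * v.1 a, actMem h v⟩

@[simp] lemma actFun_val {r : ℕ} {d : Fin r → ℤ} {i j : ℤ} (h : i ≤ j) (v : FreeDeg d i) (a : Fin r) :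
    (actFun h v).1 a = (j - d a).toNat.choose (j - i).toNat * v.1 a := rfl

lemma actAdd {r : ℕ} {d : Fin r → ℤ} {i j : ℤ} (h : i ≤ j) (v w : FreeDeg d i) :
    actFun h (v + w) = actFun h v + actFun h w := by ext; simp [mul_add]

lemma actRefl {r : ℕ} {d : Fin r → ℤ} (i : ℤ) (v : FreeDeg d i) : actFun le_rfl v = v := by
  ext; simp

lemma actAct {r : ℕ} {d : Fin r → ℤ} {i j k : ℤ} (h : i ≤ j) (h' : j ≤ k) (x : FreeDeg d i) :
    actFun h' (actFun h x) = (k - i).toNat.choose (j - i).toNat • actFun (h.trans h') x := by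
  ext a
  by_cases e : i < d a
  · simp [x.2 a e]
  obtain ⟨p, rfl⟩ := Int.le.dest (not_lt.1 e)
  obtain ⟨q, rfl⟩ := Int.le.dest h
  obtain ⟨s, rfl⟩ := Int.le.dest h'
  have := Nat.choose_mul (n := p + q + s) (k := q + s) (s := s) (by omega)
  rw [Nat.choose_symm_of_eq_add (add_comm q s), Nat.add_sub_cancel, Nat.add_sub_cancel] at this
  simp only [actFun_val, AddSubgroup.coe_nsmul, Pi.smul_apply,
    nsmul_eq_mul, ← mul_assoc, add_assoc, add_sub_cancel_left, add_sub_add_left_eq_sub]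
  norm_cast
  simp only [← add_assoc, ← this, mul_comm]

/-- the free module `⊕ D[-d a]` -/
@[reducible] def Free {r : ℕ} (d : Fin r → ℤ) : GM where
  M j := FreeDeg d j
  act h := AddMonoidHom.mk' (actFun h) (actAdd h)
  act_refl := actRefl
  act_act := actAct

/-- finitely presented -/
def FP (N : GM) : Prop :=
  ∃ (r s : ℕ) (d : Fin r → ℤ) (d' : Fin s → ℤ) (ψ : Hom (Free d') (Free d)) (π : Hom (Free d) N),
    ∀ j, Surjective (π.f j) ∧ Exact (ψ.f j) (π.f j)

/-- isomorphic graded modules -/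
def Iso (N N' : GM) : Prop := ∃ φ : Hom N N', ∀ j, Bijective (φ.f j)

/-- `τ_{≥ n} N ≅ τ_{≥ n} N'` -/
def TailIso (n : ℤ) (N N' : GM) : Prop :=
  ∃ f : ∀ j, n ≤ j → N.M j →+ N'.M j, (∀ j h, Bijective (f j h)) ∧
    ∀ i j (hi : n ≤ i) (h : i ≤ j) (x : N.M i), f j (hi.trans h) (N.act h x) = N'.act h (f i hi x)

@[reducible] def Coker {A B : GM} (ψ : Hom A B) : GM where
  M j := B.M j ⧸ (ψ.f j).range
  act h := QuotientAddGroup.map _ _ (B.act h) (by rintro _ ⟨x, rfl⟩; exact ⟨_, ψ.comm h x⟩)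
  act_refl i x := by
    induction x using QuotientAddGroup.induction_on
    simp [B.act_refl]
  act_act h h' x := by
    induction x using QuotientAddGroup.induction_on
    simp [B.act_act]

def ψ (a : ℤ) : Hom (Free ![1, 12]) (Free ![0, 11]) where
  f j :=
    { toFun := fun w => ⟨![j * w.1 0 - a * j.toNat.choose 12 * w.1 1, (j - 11) * w.1 1], fun b hb => by
        fin_cases b <;> simp at hb
        · simp [w.2 0 (by simp; omega), w.2 1 (by simp; omega)]
        · simp [w.2 1 (by simp; omega)]⟩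
      map_zero' := by ext b; fin_cases b <;> simp
      map_add' := fun _ _ => by ext b; fin_cases b <;> simp <;> ring }
  comm {i j} h x := by
    obtain ⟨q, rfl⟩ := Int.le.dest h
    have h0 : (i + q) * ((i + q - 1).toNat.choose q * x.1 0) =
        (i + q).toNat.choose q * (i * x.1 0) := by
      by_cases e : i < 1
      · simp [x.2 0 e]
      obtain ⟨p, rfl⟩ := Int.le.dest (not_lt.1 e)
      have := Nat.choose_mul_succ_eq (p + q) q
      rw [show (1 + p + q - 1 : ℤ).toNat = p + q by omega, show (1 + p + q : ℤ).toNat = p + q + 1 by omega]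
      rw [show p + q + 1 - q = p + 1 by omega] at this
      zify at this
      linear_combination x.1 0 * this
    have h1 : (((i + q).toNat.choose 12 : ℤ) * ((i + q - 12).toNat.choose q * x.1 1) =
        (i + q).toNat.choose q * (i.toNat.choose 12 * x.1 1)) ∧
        (i + q - 11) * ((i + q - 12).toNat.choose q * x.1 1) =
          (i + q - 11).toNat.choose q * ((i - 11) * x.1 1) := by
      by_cases e : i < 12
      · simp [x.2 1 e]
      obtain ⟨p, rfl⟩ := Int.le.dest (not_lt.1 e)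
      have t := Nat.choose_mul_succ_eq (p + q) q
      have := Nat.choose_mul (n := p + 12 + q) (k := p + 12) (s := 12) (by omega)
      rw [Nat.choose_symm_add, show p + 12 + q - 12 = p + q by omega, Nat.add_sub_cancel,
        Nat.choose_symm_add] at this
      rw [show (12 + p + q - 12 : ℤ).toNat = p + q by omega, show (12 + p : ℤ).toNat = p + 12 by omega,
        show (12 + p + q : ℤ).toNat = p + 12 + q by omega,
        show (12 + p + q - 11 : ℤ).toNat = p + q + 1 by omega]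
      rw [show p + q + 1 - q = p + 1 by omega] at t
      zify at this t
      exact ⟨by linear_combination -x.1 1 * this, by linear_combination x.1 1 * t⟩
    ext b
    fin_cases b <;> simp [-Int.pred_toNat]
    · linear_combination h0 - a * h1.1
    · linear_combination h1.2

lemma eq_iff (a j : ℤ) (v v' : FreeDeg ![0, 11] j) :
    (QuotientAddGroup.mk v : (Coker (ψ a)).M j) = QuotientAddGroup.mk v' ↔
    ∃ w : FreeDeg ![1, 12] j, j * w.1 0 - a * j.toNat.choose 12 * w.1 1 = v.1 0 - v'.1 0 ∧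
      (j - 11) * w.1 1 = v.1 1 - v'.1 1 := by
  refine QuotientAddGroup.eq_iff_sub_mem.trans (exists_congr fun w => Subtype.ext_iff.trans ?_)
  simp [ψ, funext_iff, Fin.forall_fin_two]

lemma dv {g : ℕ} {z : ℤ} (g0 : g ≠ 0) (h1 : ∀ k, 2 ^ k ∣ g → 2 ^ k ∣ z)
    (h2 : ∀ d : ℕ, Odd d → d ∣ g → (d : ℤ) ∣ z) : (g : ℤ) ∣ z := by
  obtain ⟨k, d, hd, rfl⟩ := Nat.exists_eq_two_pow_mul_odd g0
  push_cast
  exact IsCoprime.mul_dvd (by exact_mod_cast Nat.isCoprime_iff_coprime.2 hd.coprime_two_left |>.pow_left)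
    (h1 k (by simp)) (h2 d hd (by simp))

lemma exu (j : ℕ) : ∃ u : ℤ, j ≠ 0 → (∀ k, 2 ^ k ∣ j → 2 ^ k ∣ u + 1) ∧
    ∀ d : ℕ, Odd d → d ∣ j → (d : ℤ) ∣ u - 1 := by
  by_cases j0 : j = 0
  · simp [j0]
  obtain ⟨k, d, hd, rfl⟩ := Nat.exists_eq_two_pow_mul_odd j0
  obtain ⟨α, β, h⟩ := Nat.isCoprime_iff_coprime.2 (hd.coprime_two_left.pow_left k)
  refine ⟨α * (2 ^ k : ℕ) - β * d, fun _ => ⟨fun l hl => ?_, fun c hc hl => ?_⟩⟩
  · have := Int.natCast_dvd_natCast.2 ((hd.coprime_two_left.pow_left l).dvd_of_dvd_mul_right hl)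
    exact Dvd.dvd.trans (b := ((2 ^ k : ℕ) : ℤ)) (by exact_mod_cast this) ⟨2 * α, by linear_combination -h⟩
  · have := Int.natCast_dvd_natCast.2 ((hc.coprime_two_right.pow_right k).dvd_of_dvd_mul_left hl)
    exact this.trans ⟨-2 * β, by linear_combination h⟩

lemma dg (j i : ℕ) (z : ℤ) (h : (j.gcd i : ℤ) ∣ z) : (j : ℤ) ∣ j.choose i * z := by
  obtain ⟨c, rfl⟩ := h
  rw [← mul_assoc, Nat.gcd_eq_gcd_ab, mul_add]
  refine Dvd.dvd.mul_right (dvd_add (by simp [mul_left_comm]) ?_) _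
  rcases j with _ | j
  · cases i <;> simp
  rcases i with _ | i
  · simp
  rw [← mul_assoc]
  exact Dvd.dvd.mul_right (by exact_mod_cast Dvd.intro _ (Nat.add_one_mul_choose_eq j i)) _

def sc (u j : ℤ) : FreeDeg ![0, 11] j →+ FreeDeg ![0, 11] j where
  toFun v := ⟨![u * v.1 0, v.1 1], fun b hb => by
    fin_cases b
    · simp [v.2 0 hb]
    · simp [v.2 1 hb]⟩
  map_zero' := by ext b; fin_cases b <;> simp
  map_add' _ _ := by ext b; fin_cases b <;> simp [mul_add]

def vec {d e j : ℤ} (h : d ≤ j) (h' : e ≤ j) (a b : ℤ) : FreeDeg ![d, e] j :=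
  ⟨![a, b], fun c hc => by fin_cases c <;> simp at hc <;> omega⟩

theorem result : ∃ (N N' : GM) (n : ℤ), FP N ∧ FP N' ∧ TailIso n N N' ∧ ¬ Iso N N' := by
  have fp : ∀ a, FP (Coker (ψ a)) := fun a => ⟨_, _, _, _, ψ a,
    ⟨fun _ => QuotientAddGroup.mk' _, fun _ _ => rfl⟩, fun j =>
      ⟨QuotientAddGroup.mk'_surjective _, fun _ => QuotientAddGroup.eq_zero_iff _⟩⟩
  refine ⟨Coker (ψ 1), Coker (ψ 7), 12, fp 1, fp 7, ?_, ?_⟩
  · choose u hu using exu
    have k : ∀ (j : ℤ), 12 ≤ j → ∀ a b : ℤ, (8 ∣ a + b ∧ 6 ∣ a - b) →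
        ((ψ a).f j).range ≤ ((ψ b).f j).range.comap (sc (u j.toNat) j) := by
      rintro j hj a b ⟨h1, h2⟩ _ ⟨w, rfl⟩
      lift j to ℕ using by omega
      have j0 : j ≠ 0 := by omega
      refine (dg j 12 (u j * a - b) (dv (by simp) (fun k hk => ?_) fun d hd hk => ?_)).elim
        fun c hc => ?_
      rotate_left 2
      · refine ⟨vec (by omega) hj (u j * w.1 0 - c * w.1 1) (w.1 1), ?_⟩
        ext b
        fin_cases b <;> simp [ψ, sc, vec]
        linear_combination w.1 1 * hc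
      · have t := (hu j j0).1 k (hk.trans (Nat.gcd_dvd_left _ _))
        have : 2 ^ k ∣ 8 := (Nat.Coprime.pow_left k (by norm_num : Nat.Coprime 2 3)).dvd_of_dvd_mul_right
          (hk.trans ((Nat.gcd_dvd_right _ _).trans (by norm_num)))
        rw [show u j * a - b = (u j + 1) * a - (a + b) by ring]
        exact dvd_sub (t.mul_right _) (Dvd.dvd.trans (by exact_mod_cast this) h1)
      · have t := (hu j j0).2 d hd (hk.trans (Nat.gcd_dvd_left _ _))
        have : d ∣ 6 := hd.coprime_two_right.dvd_of_dvd_mul_right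
          (hk.trans ((Nat.gcd_dvd_right _ _).trans (by norm_num)))
        rw [show u j * a - b = (u j - 1) * a + (a - b) by ring]
        exact dvd_add (t.mul_right _) (Dvd.dvd.trans (by exact_mod_cast this) h2)
    have k2 : ∀ (j : ℤ), 12 ≤ j → ∀ a v, (QuotientAddGroup.mk (sc (u j.toNat) j (sc (u j.toNat) j v)) :
        (Coker (ψ a)).M j) = QuotientAddGroup.mk v := by
      intro j hj a v
      lift j to ℕ using by omega
      have j0 : j ≠ 0 := by omega
      obtain ⟨c, hc⟩ := dv (z := (u j + 1) * (u j - 1)) j0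
        (fun k hk => ((hu j j0).1 k hk).mul_right _) fun d hd hk => ((hu j j0).2 d hd hk).mul_left _
      refine (eq_iff ..).2 ⟨vec (by omega) hj (c * v.1 0) 0, ?_⟩
      simp [sc, vec]
      linear_combination -v.1 0 * hc
    refine ⟨fun j hj => QuotientAddGroup.map _ _ _ (k j hj 1 7 (by simp)), fun j hj =>
      bijective_iff_has_inverse.2 ⟨QuotientAddGroup.map _ _ _ (k j hj 7 1 (by simp)),
        fun x => ?_, fun x => ?_⟩, fun i j hi h x => ?_⟩ <;>
      induction x using QuotientAddGroup.induction_on with | H v => ?_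
    · exact k2 j hj 1 v
    · exact k2 j hj 7 v
    lift i to ℕ using by omega
    obtain ⟨q, rfl⟩ := Int.le.dest h
    have i0 : i ≠ 0 := by omega
    have j0 : i + q ≠ 0 := by omega
    refine (dg (i + q) i (u (i + q) - u i) (dv (by simp [i0]) (fun k hk => ?_)
      fun d hd hk => ?_)).elim fun c hc => ?_
    rotate_left 2
    · refine (eq_iff ..).2 ⟨vec (by omega) (by omega) (c * v.1 0) 0, ?_⟩
      rw [Nat.choose_symm_add] at hc
      have : (i + q : ℤ).toNat = i + q := by omega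
      push_cast at hc
      simp [sc, vec, this]
      linear_combination -v.1 0 * hc
    · simpa using dvd_sub ((hu _ j0).1 k (hk.trans (Nat.gcd_dvd_left _ _)))
        ((hu _ i0).1 k (hk.trans (Nat.gcd_dvd_right _ _)))
    · simpa using dvd_sub ((hu _ j0).2 d hd (hk.trans (Nat.gcd_dvd_left _ _)))
        ((hu _ i0).2 d hd (hk.trans (Nat.gcd_dvd_right _ _)))
  rintro ⟨φ, hφ⟩
  let e : FreeDeg ![0, 11] 0 := ⟨![1, 0], fun b hb => by fin_cases b <;> simp at hb ⊢⟩
  let f : FreeDeg ![0, 11] 11 := vec (by omega) le_rfl 0 1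
  obtain ⟨s, hs⟩ := QuotientAddGroup.mk_surjective (φ.f 0 (QuotientAddGroup.mk e))
  obtain ⟨t, ht⟩ := QuotientAddGroup.mk_surjective (φ.f 11 (QuotientAddGroup.mk f))
  have s1 : s.1 1 = 0 := s.2 1 (by simp)
  have h1 : IsUnit (s.1 0) := by
    obtain ⟨x, hx⟩ := (hφ 0).2 (QuotientAddGroup.mk e)
    obtain ⟨x, rfl⟩ := QuotientAddGroup.mk_surjective x
    have : x = x.1 0 • e := by
      ext b; fin_cases b <;> simp [e, x.2 1 (by simp)]
    rw [this, QuotientAddGroup.mk_zsmul, map_zsmul, ← hs, ← QuotientAddGroup.mk_zsmul] at hx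
    obtain ⟨w, hw, -⟩ := (eq_iff ..).1 hx
    simp [e] at hw
    exact .of_mul_eq_one_right (x.1 0) (by linear_combination -hw)
  have h2 : IsUnit (t.1 1) := by
    obtain ⟨x, hx⟩ := (hφ 11).2 (QuotientAddGroup.mk f)
    obtain ⟨x, rfl⟩ := QuotientAddGroup.mk_surjective x
    have : x = x.1 0 • (Free _).act (show (0 : ℤ) ≤ 11 by omega) e + x.1 1 • f := by
      ext b; fin_cases b <;> simp [e, f, vec]
    have c := φ.comm (show (0 : ℤ) ≤ 11 by omega) (QuotientAddGroup.mk e)
    rw [← hs] at c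
    rw [this, QuotientAddGroup.mk_add, QuotientAddGroup.mk_zsmul, QuotientAddGroup.mk_zsmul, map_add,
      map_zsmul, map_zsmul, ← ht] at hx
    erw [c] at hx
    obtain ⟨w, -, hw⟩ := (eq_iff 7 11 (x.1 0 • (Free _).act (show (0 : ℤ) ≤ 11 by omega) s + x.1 1 • t) f).1 hx
    simp [f, vec, s1] at hw
    exact .of_mul_eq_one_right (x.1 1) (by linear_combination -hw)
  have c1 := φ.comm (show (0 : ℤ) ≤ 12 by omega) (QuotientAddGroup.mk e)
  have c2 := φ.comm (show (11 : ℤ) ≤ 12 by omega) (QuotientAddGroup.mk f)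
  rw [show (Coker (ψ 1)).act _ (QuotientAddGroup.mk f) =
    (Coker (ψ 1)).act (show (0 : ℤ) ≤ 12 by omega) (QuotientAddGroup.mk e) from
    (eq_iff ..).2 ⟨vec (by omega) le_rfl 0 1, by simp [e, f, vec]⟩, c1, ← hs, ← ht] at c2
  obtain ⟨w, h3, h4⟩ := (eq_iff ..).1 c2
  simp [s1] at h3 h4
  rcases Int.isUnit_iff.1 h1 with h1 | h1 <;> rcases Int.isUnit_iff.1 h2 with h2 | h2 <;> omega

end Pool.Agent.Results.MP_c3bf79_al.Counter
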